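import Pool.Agent.BEL.StmtsE

/-!
# Squad BEL, row GLP: properties of the truncated nonlinearity
-/

namespace Pool.Agent.BEL.H29

open MeasureTheory Filter Topology Set
open scoped InnerProductSpace ENNReal NNReal

noncomputable section

variable {a al : ℝ}

theorem mm_cont (hal : 0 < al) (l : ℝ) : Continuous (mm al l) := by
  unfold mm
  exact (continuous_abs.min continuous_const).rpow_const fun _ => Or.inr hal.le

theorem ql_cont (hal : 0 < al) (l : ℝ) : Continuous (ql a al l) := by
  unfold ql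
  exact continuous_const.mul (mm_cont hal l)

theorem mm_nonneg {l : ℝ} (hl : 0 ≤ l) (s : ℝ) : 0 ≤ mm al l s :=
  Real.rpow_nonneg (le_min (abs_nonneg s) hl) _

theorem mm_le (hal : 0 < al) {l : ℝ} (hl : 0 ≤ l) (s : ℝ) : mm al l s ≤ l ^ al :=
  Real.rpow_le_rpow (le_min (abs_nonneg s) hl) (min_le_right _ _) hal.le

theorem mm_mono (hal : 0 < al) {l l' : ℝ} (hl : 0 ≤ l) (h : l ≤ l') (s : ℝ) :
    mm al l s ≤ mm al l' s :=
  Real.rpow_le_rpow (le_min (abs_nonneg s) hl) (min_le_min_left _ h) hal.le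

theorem mm_neg (l s : ℝ) : mm al l (-s) = mm al l s := by
  unfold mm
  rw [abs_neg]

theorem gl_deriv (hal : 0 < al) (l s : ℝ) : HasDerivAt (gl a al l) (ql a al l s) s :=
  ((ql_cont (a := a) hal l).integral_hasStrictDerivAt 0 s).hasDerivAt

theorem gl_zero (l : ℝ) : gl a al l 0 = 0 := by
  unfold gl
  exact intervalIntegral.integral_same

theorem gl_neg (l s : ℝ) : gl a al l (-s) = -gl a al l s := by
  unfold gl
  have h1 : ∫ r in (0 : ℝ)..(-s), ql a al l r = ∫ r in (0 : ℝ)..(-s), ql a al l (-r) := by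
    refine intervalIntegral.integral_congr fun r _ => ?_
    unfold ql
    rw [mm_neg]
  rw [h1, intervalIntegral.integral_comp_neg, neg_neg, neg_zero, intervalIntegral.integral_symm]

theorem ql_nonneg (ha : 0 < a) (hal : 0 < al) {l : ℝ} (hl : 0 ≤ l) (s : ℝ) : 0 ≤ ql a al l s :=
  mul_nonneg (mul_nonneg ha.le (by linarith)) (mm_nonneg hl s)

theorem gl_mono (ha : 0 < a) (hal : 0 < al) {l : ℝ} (hl : 0 ≤ l) : Monotone (gl a al l) :=
  monotone_of_deriv_nonneg (fun s => (gl_deriv hal l s).differentiableAt) fun s => by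
    rw [(gl_deriv hal l s).deriv]
    exact ql_nonneg ha hal hl s

/-- the difference of two truncations -/
theorem gl_sub (ha : 0 < a) (hal : 0 < al) {l l' : ℝ} (hl : 0 ≤ l) (h : l ≤ l') :
    Monotone fun s => gl a al l' s - gl a al l s :=
  monotone_of_deriv_nonneg
    (fun s => ((gl_deriv hal l' s).sub (gl_deriv hal l s)).differentiableAt) fun s => by
    have h1 : deriv (fun s => gl a al l' s - gl a al l s) s = ql a al l' s - ql a al l s :=
      ((gl_deriv hal l' s).sub (gl_deriv hal l s)).deriv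
    rw [h1]
    unfold ql
    rw [← mul_sub]
    exact mul_nonneg (mul_nonneg ha.le (by linarith)) (sub_nonneg.2 (mm_mono hal hl h s))

theorem gl_nonneg (ha : 0 < a) (hal : 0 < al) {l s : ℝ} (hl : 0 ≤ l) (hs : 0 ≤ s) :
    0 ≤ gl a al l s := by
  rw [← gl_zero (a := a) (al := al) l]
  exact gl_mono ha hal hl hs

theorem gl_le (ha : 0 < a) (hal : 0 < al) {l l' s : ℝ} (hl : 0 ≤ l) (h : l ≤ l') (hs : 0 ≤ s) :
    gl a al l s ≤ gl a al l' s := by
  have h1 := gl_sub ha hal hl h hs
  simp only [gl_zero, sub_zero] at h1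
  linarith

theorem gf_neg (s : ℝ) : gf a al (-s) = -gf a al s := by
  unfold gf
  rw [abs_neg, mul_neg]

theorem gl_eq_pos (hal : 0 < al) {l s : ℝ} (hs : 0 ≤ s) (h : s ≤ l) :
    gl a al l s = gf a al s := by
  unfold gl
  have h1 : ∫ r in (0 : ℝ)..s, ql a al l r = ∫ r in (0 : ℝ)..s, a * (al + 1) * r ^ al := by
    refine intervalIntegral.integral_congr fun r hr => ?_
    rw [uIcc_of_le hs] at hr
    change a * (al + 1) * (min |r| l) ^ al = a * (al + 1) * r ^ al
    rw [abs_of_nonneg hr.1, min_eq_left (hr.2.trans h)]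
  rw [h1, intervalIntegral.integral_const_mul, integral_rpow (Or.inl (by linarith)),
    Real.zero_rpow (by linarith : al + 1 ≠ 0)]
  unfold gf
  rw [abs_of_nonneg hs, sub_zero]
  have h2 : al + 1 ≠ 0 := by linarith
  rcases hs.eq_or_lt with rfl | hs'
  · rw [Real.zero_rpow h2]
    simp
  · rw [Real.rpow_add hs', Real.rpow_one]
    field_simp

theorem gl_eq (hal : 0 < al) {l s : ℝ} (h : |s| ≤ l) : gl a al l s = gf a al s := by
  rcases le_total 0 s with hs | hs
  · rw [abs_of_nonneg hs] at h
    exact gl_eq_pos hal hs h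
  · rw [abs_of_nonpos hs] at h
    have h1 := gl_eq_pos (a := a) hal (neg_nonneg.2 hs) h
    rw [gl_neg, gf_neg] at h1
    linarith

/-- for `x ≥ 0` -/
theorem gl_le_gf (ha : 0 < a) (hal : 0 < al) {l s : ℝ} (hl : 0 ≤ l) (hs : 0 ≤ s) :
    gl a al l s ≤ gf a al s := by
  have h1 := gl_le ha hal hl (le_max_left l |s|) hs
  rwa [gl_eq hal (le_max_right l |s|)] at h1

theorem gl_abs (ha : 0 < a) (hal : 0 < al) {l : ℝ} (s : ℝ) (hl : 0 ≤ l) :
    |gl a al l s| ≤ |gf a al s| := by
  rcases le_total 0 s with hs | hs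
  · rw [abs_of_nonneg (gl_nonneg ha hal hl hs)]
    exact (gl_le_gf ha hal hl hs).trans (le_abs_self _)
  · have h1 := gl_nonneg ha hal hl (neg_nonneg.2 hs)
    have h2 := gl_le_gf ha hal hl (neg_nonneg.2 hs)
    rw [← abs_neg (gl a al l s), ← abs_neg (gf a al s), ← gl_neg, ← gf_neg, abs_of_nonneg h1]
    exact h2.trans (le_abs_self _)

/-- the difference of two truncations is bounded by `gf` -/
theorem gl_diff (ha : 0 < a) (hal : 0 < al) {l l' : ℝ} (s : ℝ) (hl : 0 ≤ l) (h : l ≤ l') :
    |gl a al l s - gl a al l' s| ≤ |gf a al s| := by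
  have key : ∀ s, 0 ≤ s → |gl a al l s - gl a al l' s| ≤ |gf a al s| := by
    intro s hs
    have h1 := gl_nonneg ha hal hl hs
    have h2 := gl_le ha hal hl h hs
    have h3 := gl_le_gf ha hal (hl.trans h) hs
    have h4 := le_abs_self (gf a al s)
    rw [abs_le]
    constructor <;> linarith
  rcases le_total 0 s with hs | hs
  · exact key s hs
  · have h1 := key (-s) (neg_nonneg.2 hs)
    rw [gl_neg, gl_neg, gf_neg, abs_neg] at h1
    rwa [show -gl a al l s - -gl a al l' s = -(gl a al l s - gl a al l' s) by ring,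
      abs_neg] at h1

theorem gf_abs (ha : 0 < a) (hal : 0 < al) (s : ℝ) : |gf a al s| = a * |s| ^ (al + 1) := by
  unfold gf
  rw [abs_mul, abs_mul, abs_of_pos ha, abs_of_nonneg (Real.rpow_nonneg (abs_nonneg s) al)]
  rcases (abs_nonneg s).eq_or_lt with h | h
  · rw [← h, Real.zero_rpow (by linarith : al + 1 ≠ 0)]
    simp
  · rw [Real.rpow_add h, Real.rpow_one, mul_assoc]

/-- the last inequality -/
theorem gl_last (ha : 0 < a) (hal : 0 < al) {l l' p : ℝ} (x y : ℝ) (hl : 0 < l) (h : l ≤ l')
    (hp : al + 2 < p) : -(3 * a * l ^ (al + 2 - p) * (|x| ^ p + |y| ^ p)) ≤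
      (gl a al l x - gl a al l' y) * (x - y) := by
  have hx0 := abs_nonneg x
  have hy0 := abs_nonneg y
  have hxp : 0 ≤ |x| ^ p := Real.rpow_nonneg hx0 p
  have hyp : 0 ≤ |y| ^ p := Real.rpow_nonneg hy0 p
  have hlp : 0 ≤ l ^ (al + 2 - p) := Real.rpow_nonneg hl.le _
  have h1 : 0 ≤ (gl a al l' x - gl a al l' y) * (x - y) := by
    have hm := gl_mono ha hal (hl.le.trans h)
    rcases le_total x y with hxy | hxy
    · have := hm hxy
      exact mul_nonneg_of_nonpos_of_nonpos (by linarith) (by linarith)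
    · have := hm hxy
      exact mul_nonneg (by linarith) (by linarith)
  have h2 : (gl a al l x - gl a al l' y) * (x - y) =
      (gl a al l' x - gl a al l' y) * (x - y) + (gl a al l x - gl a al l' x) * (x - y) := by ring
  have h3 : |(gl a al l x - gl a al l' x) * (x - y)| ≤
      3 * a * l ^ (al + 2 - p) * (|x| ^ p + |y| ^ p) := by
    rcases le_or_gt |x| l with hx | hx
    · rw [gl_eq hal hx, gl_eq hal (hx.trans h), sub_self, zero_mul, abs_zero]
      positivity
    · have hx' : 0 < |x| := hl.trans hx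
      rw [abs_mul]
      have h4 : |gl a al l x - gl a al l' x| ≤ a * l ^ (al + 2 - p) * |x| ^ (p - 1) := by
        refine (gl_diff ha hal x hl.le h).trans ?_
        rw [gf_abs ha hal]
        have h5 : |x| ^ (al + 1) = |x| ^ (al + 2 - p) * |x| ^ (p - 1) := by
          rw [← Real.rpow_add hx']
          congr 1
          ring
        have h6 : |x| ^ (al + 2 - p) ≤ l ^ (al + 2 - p) :=
          Real.rpow_le_rpow_of_nonpos hl hx.le (by linarith)
        rw [h5, mul_assoc]
        exact mul_le_mul_of_nonneg_left (mul_le_mul_of_nonneg_right h6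
          (Real.rpow_nonneg hx0 _)) ha.le
      have h7 : |x - y| ≤ |x| + |y| := abs_sub _ _
      have h8 : |x| ^ (p - 1) * |x| = |x| ^ p := by
        rw [← Real.rpow_add_one hx'.ne']
        congr 1
        ring
      have h9 : |x| ^ (p - 1) * |y| ≤ |x| ^ p + |y| ^ p := by
        rcases le_total |y| |x| with hxy | hxy
        · calc |x| ^ (p - 1) * |y| ≤ |x| ^ (p - 1) * |x| :=
              mul_le_mul_of_nonneg_left hxy (Real.rpow_nonneg hx0 _)
            _ = |x| ^ p := h8
            _ ≤ _ := by linarith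
        · have hy' : 0 < |y| := hx'.trans_le hxy
          calc |x| ^ (p - 1) * |y| ≤ |y| ^ (p - 1) * |y| :=
              mul_le_mul_of_nonneg_right (Real.rpow_le_rpow hx0 hxy (by linarith)) hy0
            _ = |y| ^ p := by
              rw [← Real.rpow_add_one hy'.ne']
              congr 1
              ring
            _ ≤ _ := by linarith
      calc |gl a al l x - gl a al l' x| * |x - y|
          ≤ (a * l ^ (al + 2 - p) * |x| ^ (p - 1)) * (|x| + |y|) :=
            mul_le_mul h4 h7 (abs_nonneg _) (by positivity)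
        _ = a * l ^ (al + 2 - p) * (|x| ^ (p - 1) * |x| + |x| ^ (p - 1) * |y|) := by ring
        _ ≤ a * l ^ (al + 2 - p) * (3 * (|x| ^ p + |y| ^ p)) := by
            refine mul_le_mul_of_nonneg_left ?_ (by positivity)
            rw [h8]
            linarith
        _ = _ := by ring
  have h4 := (abs_le.1 h3).1
  rw [h2]
  linarith

/-- GLP -/
theorem glp : GlpStmt := by
  intro a al ha hal
  refine ⟨fun l s _ => gl_deriv hal l s, fun l hl => ?_, fun l hl => gl_mono ha hal hl,
    fun l => gl_zero l, fun l s hl => ?_, fun l l' s hl h => ?_, fun l s hl => gl_abs ha hal s hl,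
    fun l s h => gl_eq hal h, fun l l' p x y hl h hp => gl_last ha hal x y hl h hp⟩
  · refine lipschitzWith_of_nnnorm_deriv_le (fun s => (gl_deriv hal l s).differentiableAt)
      fun s => ?_
    rw [(gl_deriv hal l s).deriv, ← NNReal.coe_le_coe, coe_nnnorm, Real.norm_eq_abs,
      abs_of_nonneg (ql_nonneg ha hal hl s), Real.coe_toNNReal']
    refine le_trans ?_ (le_max_left _ _)
    unfold ql
    exact mul_le_mul_of_nonneg_left (mm_le hal hl s) (mul_nonneg ha.le (by linarith))
  · rcases le_total 0 s with hs | hs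
    · exact mul_nonneg (gl_nonneg ha hal hl hs) hs
    · have h1 := gl_nonneg ha hal hl (neg_nonneg.2 hs)
      rw [gl_neg] at h1
      exact mul_nonneg_of_nonpos_of_nonpos (by linarith) hs
  · rcases le_total 0 s with hs | hs
    · exact mul_le_mul_of_nonneg_right (gl_le ha hal hl h hs) hs
    · have h1 := gl_le ha hal hl h (neg_nonneg.2 hs)
      rw [gl_neg, gl_neg] at h1
      exact mul_le_mul_of_nonpos_right (by linarith) hs

end

end Pool.Agent.BEL.H29
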