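import Pool.Agent.Helper29_BEL.GLP

/-!
# Squad BEL, row GCV: convergence of the nonlinear term, tested with a bounded function
-/

namespace Pool.Agent.BEL.H29

open MeasureTheory Filter Topology Set
open scoped InnerProductSpace ENNReal NNReal

noncomputable section

variable {a al : ℝ}

theorem gf_mul_self (hal : 0 < al) (s : ℝ) : gf a al s * s = a * |s| ^ (al + 2) := by
  unfold gf
  rcases (abs_nonneg s).eq_or_lt with h | h
  · rw [← h, Real.zero_rpow (by linarith : al + 2 ≠ 0), abs_eq_zero.1 h.symm]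
    simp
  · rw [Real.rpow_add h, show (2 : ℝ) = ((2 : ℕ) : ℝ) by norm_num, Real.rpow_natCast, sq_abs]
    ring

theorem gf_meas : Measurable (gf a al) := by
  unfold gf
  fun_prop

/-- the distance of the truncation from `gf` -/
theorem gf_sub (ha : 0 < a) (hal : 0 < al) {k : ℝ} (hk : 0 < k) (s : ℝ) :
    |gf a al s - gl a al k s| ≤ (a * |s| ^ (al + 2)) / k := by
  rcases le_or_gt |s| k with h | h
  · rw [gl_eq hal h, sub_self, abs_zero]
    have := Real.rpow_nonneg (abs_nonneg s) (al + 2)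
    positivity
  · have hs : 0 < |s| := hk.trans h
    have h1 := gl_diff ha hal s hk.le (le_max_left k |s|)
    rw [gl_eq hal (le_max_right k |s|), abs_sub_comm] at h1
    refine h1.trans ?_
    rw [gf_abs ha hal, le_div_iff₀ hk, mul_assoc]
    refine mul_le_mul_of_nonneg_left ?_ ha.le
    calc |s| ^ (al + 1) * k ≤ |s| ^ (al + 1) * |s| :=
          mul_le_mul_of_nonneg_left h.le (Real.rpow_nonneg hs.le _)
      _ = |s| ^ (al + 2) := by
          rw [← Real.rpow_add_one hs.ne']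
          congr 1
          ring

/-- the distance of two truncations -/
theorem gl_sub_le (ha : 0 < a) (hal : 0 < al) {k n : ℝ} (hk : 0 < k) (hn : k ≤ n) (s : ℝ) :
    |gl a al n s - gl a al k s| ≤ gl a al n s * s / k := by
  have key : ∀ s, 0 ≤ s → |gl a al n s - gl a al k s| ≤ gl a al n s * s / k := by
    intro s hs
    have h1 := gl_nonneg (a := a) ha hal hk.le hs
    have h2 := gl_le (a := a) ha hal hk.le hn hs
    rcases le_or_gt s k with h | h
    · rw [gl_eq_pos hal hs h, gl_eq_pos hal hs (h.trans hn), sub_self, abs_zero]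
      have h3 := gl_eq_pos (a := a) hal hs (h.trans hn)
      rw [← h3]
      exact div_nonneg (mul_nonneg (h1.trans h2) hs) hk.le
    · rw [abs_of_nonneg (by linarith), le_div_iff₀ hk]
      calc (gl a al n s - gl a al k s) * k ≤ gl a al n s * k :=
            mul_le_mul_of_nonneg_right (by linarith) hk.le
        _ ≤ gl a al n s * s := mul_le_mul_of_nonneg_left h.le (h1.trans h2)
  rcases le_total 0 s with hs | hs
  · exact key s hs
  · have h1 := key (-s) (neg_nonneg.2 hs)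
    rw [gl_neg, gl_neg] at h1
    rw [show -gl a al n s - -gl a al k s = -(gl a al n s - gl a al k s) by ring, abs_neg,
      neg_mul_neg] at h1
    exact h1

section nem

variable {X : Type} [MeasurableSpace X] (μ : Measure X)

/-- the size of the nonlinear term -/
def AA (a al : ℝ) (v : Lp ℝ 2 μ) : ℝ≥0∞ := ∫⁻ x, ENNReal.ofReal (a * |v x| ^ (al + 2)) ∂μ

theorem q_meas (v : Lp ℝ 2 μ) : AEMeasurable (fun x => a * |v x| ^ (al + 2)) μ := by
  have h := (Lp.aestronglyMeasurable v).aemeasurable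
  exact (((continuous_abs.measurable.comp_aemeasurable h).pow_const (al + 2)).const_mul a)

variable (hN : NemStmt) (ha : 0 < a) (hal : 0 < al)
include hN ha hal

theorem nem_facts (k : ℕ) :
    (∀ v : Lp ℝ 2 μ, ∀ᵐ x ∂μ, nem μ (gl a al k) v x = gl a al k (v x)) ∧
    LipschitzWith (Real.toNNReal (a * (al + 1) * (k : ℝ) ^ al)) (nem μ (gl a al k)) ∧
    nem μ (gl a al k) 0 = 0 ∧
    (∀ v w : Lp ℝ 2 μ, ⟪nem μ (gl a al k) v, w⟫_ℝ = ∫ x, gl a al k (v x) * w x ∂μ) ∧
    (∀ v w : Lp ℝ 2 μ, Integrable (fun x => gl a al k (v x) * w x) μ) ∧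
    (∀ v w : Lp ℝ 2 μ, 0 ≤ ⟪nem μ (gl a al k) v - nem μ (gl a al k) w, v - w⟫_ℝ) := by
  have hk : (0 : ℝ) ≤ k := Nat.cast_nonneg k
  have hg := glp a al ha hal
  obtain ⟨h1, h2, h3, h4, h5, h6⟩ := hN X μ (gl a al k) _ (hg.2.1 k hk) (gl_zero _)
  exact ⟨h1, h2, h3, h4, h5, h6 (gl_mono ha hal hk)⟩

/-- monotone convergence -/
theorem tendsto_AA (v : Lp ℝ 2 μ) :
    Tendsto (fun k : ℕ => ENNReal.ofReal ⟪nem μ (gl a al k) v, v⟫_ℝ) atTop (𝓝 (AA μ a al v)) := by
  have hnn : ∀ k : ℕ, ∀ x, 0 ≤ gl a al k (v x) * v x := fun k x =>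
    (glp a al ha hal).2.2.2.2.1 k (v x) (Nat.cast_nonneg k)
  have h1 : ∀ k : ℕ, ENNReal.ofReal ⟪nem μ (gl a al k) v, v⟫_ℝ =
      ∫⁻ x, ENNReal.ofReal (gl a al k (v x) * v x) ∂μ := by
    intro k
    obtain ⟨-, -, -, h4, h5, -⟩ := nem_facts μ hN ha hal k
    rw [h4, ofReal_integral_eq_lintegral_ofReal (h5 v v) (ae_of_all _ (hnn k))]
  simp only [h1]
  unfold AA
  refine lintegral_tendsto_of_tendsto_of_monotone (fun k => ?_) (ae_of_all _ fun x => ?_)
    (ae_of_all _ fun x => ?_)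
  · obtain ⟨-, -, -, -, h5, -⟩ := nem_facts μ hN ha hal k
    exact (h5 v v).aestronglyMeasurable.aemeasurable.ennreal_ofReal
  · intro k k' hkk
    exact ENNReal.ofReal_le_ofReal ((glp a al ha hal).2.2.2.2.2.1 k k' (v x) (Nat.cast_nonneg k)
      (Nat.cast_le.2 hkk))
  · refine tendsto_const_nhds.congr' ?_
    filter_upwards [eventually_ge_atTop ⌈|v x|⌉₊] with k hk
    have h2 : |v x| ≤ k := (Nat.le_ceil _).trans (Nat.cast_le.2 hk)
    rw [gl_eq hal h2, gf_mul_self hal]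

/-- the limit of the truncations for one function -/
theorem one_fct (v e : Lp ℝ 2 μ) {B : ℝ} (hB : ∀ᵐ x ∂μ, |e x| ≤ B)
    (hfin : AA μ a al v ≠ ∞) : ∀ k : ℕ, 1 ≤ k →
    |(∫ x, gf a al (v x) * e x ∂μ) - ⟪nem μ (gl a al k) v, e⟫_ℝ| ≤
      B / k * (AA μ a al v).toReal := by
  have hq0 : ∀ x, 0 ≤ a * |v x| ^ (al + 2) := fun x =>
    mul_nonneg ha.le (Real.rpow_nonneg (abs_nonneg _) _)
  have hqi : Integrable (fun x => a * |v x| ^ (al + 2)) μ := by
    refine ⟨(q_meas μ v).aestronglyMeasurable, ?_⟩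
    rw [hasFiniteIntegral_iff_ofReal (ae_of_all _ hq0)]
    exact lt_top_iff_ne_top.2 hfin
  have hqe : ∫ x, a * |v x| ^ (al + 2) ∂μ = (AA μ a al v).toReal :=
    integral_eq_lintegral_of_nonneg_ae (ae_of_all _ hq0) hqi.1
  have hd : ∀ k : ℕ, 1 ≤ k → ∀ᵐ x ∂μ, |gf a al (v x) * e x - gl a al k (v x) * e x| ≤
      B / k * (a * |v x| ^ (al + 2)) := by
    intro k hk
    filter_upwards [hB] with x hx
    have hk' : (0 : ℝ) < k := by exact_mod_cast hk
    rw [← sub_mul, abs_mul]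
    calc |gf a al (v x) - gl a al k (v x)| * |e x|
        ≤ ((a * |v x| ^ (al + 2)) / k) * B :=
          mul_le_mul (gf_sub ha hal hk' _) hx (abs_nonneg _) (div_nonneg (hq0 x) hk'.le)
      _ = _ := by ring
  have hmeas : AEStronglyMeasurable (fun x => gf a al (v x) * e x) μ :=
    ((gf_meas.comp_aemeasurable (Lp.aestronglyMeasurable v).aemeasurable).mul
      (Lp.aestronglyMeasurable e).aemeasurable).aestronglyMeasurable
  have hdi : ∀ k : ℕ, 1 ≤ k → Integrable (fun x => gf a al (v x) * e x - gl a al k (v x) * e x)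
      μ := by
    intro k hk
    obtain ⟨-, -, -, -, h5, -⟩ := nem_facts μ hN ha hal k
    refine (hqi.const_mul (B / k)).mono' (hmeas.sub (h5 v e).1) ?_
    filter_upwards [hd k hk] with x hx
    rw [Real.norm_eq_abs]
    exact hx
  have hgi : Integrable (fun x => gf a al (v x) * e x) μ := by
    obtain ⟨-, -, -, -, h5, -⟩ := nem_facts μ hN ha hal 1
    have h6 := (hdi 1 le_rfl).add (h5 v e)
    refine h6.congr (ae_of_all _ fun x => ?_)
    simp
  intro k hk
  obtain ⟨-, -, -, h4, h5, -⟩ := nem_facts μ hN ha hal k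
  rw [h4, ← integral_sub hgi (h5 v e), ← hqe, ← integral_const_mul]
  refine (abs_integral_le_integral_abs).trans ?_
  exact integral_mono_ae (hdi k hk).abs (hqi.const_mul _) (hd k hk)

/-- two truncations of one function -/
theorem two_fct (v e : Lp ℝ 2 μ) {B : ℝ} (hB : ∀ᵐ x ∂μ, |e x| ≤ B) {k n : ℕ}
    (hk : 1 ≤ k) (hn : k ≤ n) :
    |⟪nem μ (gl a al n) v, e⟫_ℝ - ⟪nem μ (gl a al k) v, e⟫_ℝ| ≤
      B / k * ⟪nem μ (gl a al n) v, v⟫_ℝ := by
  have hk' : (0 : ℝ) < k := by exact_mod_cast hk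
  have hn' : (k : ℝ) ≤ n := Nat.cast_le.2 hn
  obtain ⟨-, -, -, h4, h5, -⟩ := nem_facts μ hN ha hal k
  obtain ⟨-, -, -, h4', h5', -⟩ := nem_facts μ hN ha hal n
  rw [h4, h4', h4', ← integral_sub (h5' v e) (h5 v e), ← integral_const_mul]
  refine (abs_integral_le_integral_abs).trans ?_
  refine integral_mono_ae ((h5' v e).sub (h5 v e)).abs ((h5' v v).const_mul _) ?_
  filter_upwards [hB] with x hx
  change |gl a al n (v x) * e x - gl a al k (v x) * e x| ≤ B / k * (gl a al n (v x) * v x)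
  rw [← sub_mul, abs_mul]
  have h6 := gl_sub_le ha hal hk' hn' (v x)
  calc |gl a al n (v x) - gl a al k (v x)| * |e x|
      ≤ (gl a al n (v x) * v x / k) * B :=
        mul_le_mul h6 hx (abs_nonneg _) ((abs_nonneg _).trans h6)
    _ = _ := by ring

end nem

/-- the limit argument -/
theorem conv_core {t B C : ℝ} (ht : 0 ≤ t) {Φ α : ℝ → ℝ} {φ : ℕ → ℝ → ℝ} {ψ : ℕ → ℕ → ℝ → ℝ}
    (hα : IntegrableOn α (Icc 0 t)) (hφ : ∀ k, ContinuousOn (φ k) (Icc 0 t))
    (h0 : ∀ᵐ r ∂(volume.restrict (Icc 0 t)), ∀ k : ℕ, 1 ≤ k → |Φ r - φ k r| ≤ B / k * α r)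
    (h1 : ∀ k n : ℕ, 1 ≤ k → k ≤ n →
      |(∫ r in (0 : ℝ)..t, ψ n n r) - ∫ r in (0 : ℝ)..t, ψ k n r| ≤ C / k)
    (h2 : ∀ k, Tendsto (fun n => ∫ r in (0 : ℝ)..t, ψ k n r) atTop
      (𝓝 (∫ r in (0 : ℝ)..t, φ k r))) :
    IntervalIntegrable Φ volume 0 t ∧
    Tendsto (fun n => ∫ r in (0 : ℝ)..t, ψ n n r) atTop (𝓝 (∫ r in (0 : ℝ)..t, Φ r)) := by
  have hφi : ∀ k, IntegrableOn (φ k) (Icc 0 t) := fun k => (hφ k).integrableOn_Icc
  have hmeas : AEStronglyMeasurable Φ (volume.restrict (Icc 0 t)) := by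
    refine aestronglyMeasurable_of_tendsto_ae atTop (f := fun k => φ k)
      (fun k => (hφi k).aestronglyMeasurable) ?_
    filter_upwards [h0] with r hr
    have h3 : Tendsto (fun k : ℕ => B / (k : ℝ) * α r) atTop (𝓝 0) := by
      have := (tendsto_const_div_atTop_nhds_zero_nat B).mul_const (α r)
      simpa using this
    rw [tendsto_iff_norm_sub_tendsto_zero]
    refine squeeze_zero' (Eventually.of_forall fun k => norm_nonneg _) ?_ h3
    filter_upwards [eventually_ge_atTop 1] with k hk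
    rw [norm_sub_rev, Real.norm_eq_abs]
    exact hr k hk
  have hdi : ∀ k : ℕ, 1 ≤ k → IntegrableOn (fun r => Φ r - φ k r) (Icc 0 t) := by
    intro k hk
    refine (hα.const_mul (B / k)).mono' (hmeas.sub (hφi k).aestronglyMeasurable) ?_
    filter_upwards [h0] with r hr
    rw [Real.norm_eq_abs]
    exact hr k hk
  have hΦ : IntegrableOn Φ (Icc 0 t) := by
    refine ((hdi 1 le_rfl).add (hφi 1)).congr (ae_of_all _ fun x => ?_)
    simp
  have hΦi : IntervalIntegrable Φ volume 0 t :=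
    (intervalIntegrable_iff_integrableOn_Icc_of_le ht).2 hΦ
  refine ⟨hΦi, ?_⟩
  have h3 : ∀ k : ℕ, 1 ≤ k → |(∫ r in (0 : ℝ)..t, Φ r) - ∫ r in (0 : ℝ)..t, φ k r| ≤
      (B * ∫ r in (0 : ℝ)..t, α r) / k := by
    intro k hk
    have h4 : IntervalIntegrable (φ k) volume 0 t :=
      (intervalIntegrable_iff_integrableOn_Icc_of_le ht).2 (hφi k)
    have h5 : IntervalIntegrable α volume 0 t :=
      (intervalIntegrable_iff_integrableOn_Icc_of_le ht).2 hα
    rw [← intervalIntegral.integral_sub hΦi h4, mul_div_right_comm,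
      ← intervalIntegral.integral_const_mul]
    refine (intervalIntegral.abs_integral_le_integral_abs ht).trans ?_
    refine intervalIntegral.integral_mono_ae_restrict ht (hΦi.sub h4).abs (h5.const_mul _) ?_
    filter_upwards [h0] with r hr using hr k hk
  rw [Metric.tendsto_atTop]
  intro ε hε
  obtain ⟨k, hk⟩ := exists_nat_gt ((C + B * ∫ r in (0 : ℝ)..t, α r) / (ε / 2))
  set D := B * ∫ r in (0 : ℝ)..t, α r with hD
  set m := max 1 k with hm
  have hm1 : 1 ≤ m := le_max_left _ _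
  have hmp : (0 : ℝ) < m := by exact_mod_cast hm1
  have hkm : (k : ℝ) ≤ m := Nat.cast_le.2 (le_max_right _ _)
  have h6 : (C + D) / m < ε / 2 := by
    rw [div_lt_iff₀ hmp]
    rw [div_lt_iff₀ (by positivity)] at hk
    nlinarith
  obtain ⟨N, hN⟩ := Metric.tendsto_atTop.1 (h2 m) (ε / 2) (by positivity)
  refine ⟨max m N, fun n hn => ?_⟩
  have h7 := h1 m n hm1 ((le_max_left _ _).trans hn)
  have h8 := hN n ((le_max_right _ _).trans hn)
  have h9 := h3 m hm1
  rw [Real.dist_eq] at h8 ⊢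
  rw [add_div] at h6
  have e1 := abs_le.1 h7
  have e2 := abs_lt.1 h8
  have e3 := abs_le.1 h9
  rw [abs_lt]
  constructor <;> linarith [e1.1, e1.2, e2.1, e2.2, e3.1, e3.2]

/-- GCV. -/
theorem gcv (hF : FlpStmt) (hP : PrsStmt) (hN : NemStmt) (hE : EniStmt) : GcvStmt := by
  intro X _ μ _ a al κ b om W Z S ha hal hW hL V e B0 t ht hB0
  have hlip : ∀ n : ℕ, ∃ K : ℝ≥0, LipschitzWith K (nem μ (gl a al n)) := fun n =>
    ⟨_, (nem_facts μ hN ha hal n).2.1⟩
  have hmon : ∀ (n : ℕ) x y, 0 ≤ ⟪nem μ (gl a al n) x - nem μ (gl a al n) y, x - y⟫_ℝ := fun n =>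
    (nem_facts μ hN ha hal n).2.2.2.2.2
  have hzero : ∀ n : ℕ, nem μ (gl a al n) 0 = 0 := fun n => (nem_facts μ hN ha hal n).2.2.1
  obtain ⟨hS0, hSc, -, -⟩ := hP _ κ b om W _ Z S hW hlip hmon hzero hL
  -- a nonnegative bound
  set B := |B0| with hBdef
  have hB0' : 0 ≤ B := abs_nonneg _
  have hB : ∀ᵐ x ∂μ, |e x| ≤ B := hB0.mono fun x hx => hx.trans (le_abs_self _)
  -- the curves
  set vv : ℝ → Lp ℝ 2 μ := fun r => P2 (S r V) with hvv
  set vn : ℕ → ℝ → Lp ℝ 2 μ := fun n r => P2 (W r (Z n V r)) with hvn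
  have hvvc : ContinuousOn vv (Icc 0 t) :=
    P2.continuous.comp_continuousOn ((hSc V).mono Icc_subset_Ici_self)
  have hfl : ∀ n, (Continuous (vn n)) ∧
      ∀ s t, ‖Z n V s‖ ^ 2 - ‖Z n V t‖ ^ 2 =
        2 * ∫ r in s..t, ⟪nem μ (gl a al n) (vn n r), vn n r⟫_ℝ := by
    intro n
    obtain ⟨K, hK⟩ := hlip n
    obtain ⟨q1, -, -, -, q5⟩ := hF _ κ b om W _ K hW hK (hmon n) (hzero n) V V _ _ (hL.fl n V)
      (hL.fl n V)
    exact ⟨q1, q5⟩
  have hunif : TendstoUniformlyOn vn vv atTop (Icc 0 t) := by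
    have h1 := hL.lim V t
    exact (P2 : KK (Lp ℝ 2 μ) →L[ℝ] Lp ℝ 2 μ).uniformContinuous.comp_tendstoUniformlyOn h1
  have hnc : ∀ k, ContinuousOn (fun r => nem μ (gl a al (k : ℕ)) (vv r)) (Icc 0 t) := by
    intro k
    obtain ⟨K, hK⟩ := hlip k
    exact hK.continuous.comp_continuousOn hvvc
  have hnv : ∀ k n, Continuous (fun r => nem μ (gl a al (k : ℕ)) (vn n r)) := by
    intro k n
    obtain ⟨K, hK⟩ := hlip k
    exact hK.continuous.comp (hfl n).1
  -- the dissipation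
  have hAm : AEMeasurable (fun r => AA μ a al (vv r)) (volume.restrict (Icc 0 t)) := by
    refine aemeasurable_of_tendsto_metrizable_ae atTop
      (f := fun (k : ℕ) r => ENNReal.ofReal ⟪nem μ (gl a al k) (vv r), vv r⟫_ℝ) (fun k => ?_)
      (ae_of_all _ fun r => tendsto_AA μ hN ha hal (vv r))
    exact (((hnc k).inner hvvc).aemeasurable measurableSet_Icc).ennreal_ofReal
  have hAi : ∫⁻ r in Icc 0 t, AA μ a al (vv r) ≠ ∞ := by
    have h1 := hE X μ a al κ b om W Z S ha hal hW hL V 0 t le_rfl ht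
    have h2 : ∀ r, AA μ a al (vv r) =
        ENNReal.ofReal a * ∫⁻ x, ENNReal.ofReal (|P2 (S r V) x| ^ (al + 2)) ∂μ := by
      intro r
      unfold AA
      rw [← lintegral_const_mul' _ _ ENNReal.ofReal_ne_top]
      refine lintegral_congr fun x => ?_
      rw [ENNReal.ofReal_mul ha.le]
    simp only [h2]
    rw [lintegral_const_mul' _ _ ENNReal.ofReal_ne_top]
    have h3 : ENNReal.ofReal (2 * a) *
        ∫⁻ r in Icc 0 t, ∫⁻ x, ENNReal.ofReal (|P2 (S r V) x| ^ (al + 2)) ∂μ ≠ ∞ := by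
      refine ne_top_of_le_ne_top ENNReal.ofReal_ne_top (le_trans ?_ h1)
      exact le_add_self
    refine ne_top_of_le_ne_top h3 ?_
    gcongr
    linarith
  have hAf : ∀ᵐ r ∂(volume.restrict (Icc 0 t)), AA μ a al (vv r) < ∞ := ae_lt_top' hAm hAi
  have hα : IntegrableOn (fun r => (AA μ a al (vv r)).toReal) (Icc 0 t) :=
    integrable_toReal_of_lintegral_ne_top hAm hAi
  refine conv_core (B := B) (C := B * ‖V‖ ^ 2) ht hα
    (φ := fun k r => ⟪nem μ (gl a al (k : ℕ)) (vv r), e⟫_ℝ)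
    (ψ := fun k n r => ⟪nem μ (gl a al (k : ℕ)) (vn n r), e⟫_ℝ) (fun k => ?_) ?_ ?_ ?_
  · exact (hnc k).inner continuousOn_const
  · filter_upwards [hAf] with r hr k hk
    exact one_fct μ hN ha hal (vv r) e hB hr.ne k hk
  · intro k n hk hn
    have hk' : (0 : ℝ) < k := by exact_mod_cast hk
    have c1 : Continuous fun r => ⟪nem μ (gl a al (n : ℕ)) (vn n r), e⟫_ℝ :=
      (hnv n n).inner continuous_const
    have c2 : Continuous fun r => ⟪nem μ (gl a al (k : ℕ)) (vn n r), e⟫_ℝ :=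
      (hnv k n).inner continuous_const
    have c3 : Continuous fun r => ⟪nem μ (gl a al (n : ℕ)) (vn n r), vn n r⟫_ℝ :=
      (hnv n n).inner (hfl n).1
    rw [← intervalIntegral.integral_sub (c1.intervalIntegrable _ _) (c2.intervalIntegrable _ _)]
    refine (intervalIntegral.abs_integral_le_integral_abs ht).trans ?_
    have h4 : ∫ r in (0 : ℝ)..t, |⟪nem μ (gl a al (n : ℕ)) (vn n r), e⟫_ℝ -
        ⟪nem μ (gl a al (k : ℕ)) (vn n r), e⟫_ℝ| ≤
        ∫ r in (0 : ℝ)..t, B / k * ⟪nem μ (gl a al (n : ℕ)) (vn n r), vn n r⟫_ℝ := by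
      refine intervalIntegral.integral_mono_on ht ((c1.sub c2).abs.intervalIntegrable _ _)
        ((continuous_const.mul c3).intervalIntegrable _ _) fun r _ => ?_
      exact two_fct μ hN ha hal (vn n r) e hB hk hn
    refine h4.trans ?_
    rw [intervalIntegral.integral_const_mul, div_mul_eq_mul_div]
    refine div_le_div_of_nonneg_right ?_ hk'.le
    refine mul_le_mul_of_nonneg_left ?_ hB0'
    have h5 := (hfl n).2 0 t
    rw [(hL.fl n V).z0] at h5
    nlinarith [sq_nonneg ‖Z n V t‖, sq_nonneg ‖V‖]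
  · intro k
    obtain ⟨K, hK⟩ := hlip k
    have h6 : TendstoUniformlyOn (fun n r => ⟪nem μ (gl a al (k : ℕ)) (vn n r), e⟫_ℝ)
        (fun r => ⟪nem μ (gl a al (k : ℕ)) (vv r), e⟫_ℝ) atTop (Icc 0 t) := by
      have h7 : UniformContinuous fun x : Lp ℝ 2 μ => ⟪x, e⟫_ℝ := by
        have := (innerSL ℝ e : Lp ℝ 2 μ →L[ℝ] ℝ).uniformContinuous
        refine this.congr fun x => ?_
        simp [real_inner_comm]
      exact (h7.comp hK.uniformContinuous).comp_tendstoUniformlyOn hunif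
    rw [← uIcc_of_le ht] at h6
    refine h6.tendsto_intervalIntegral_of_continuousOn (Eventually.of_forall fun n => ?_)
    exact ((hnv k n).inner continuous_const).continuousOn

end

end Pool.Agent.BEL.H29
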