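import Pool.Agent.BEL.StmtsC

/-!
# Squad BEL, row PER: the perturbation estimate
-/

namespace Pool.Agent.BEL.H29

open MeasureTheory Filter Topology Set
open scoped InnerProductSpace ENNReal NNReal

/-- comparison for a differentiable function -/
theorem cmp_int {f f' g : ℝ → ℝ} (hf : ∀ t, HasDerivAt f (f' t) t) (hg : Continuous g)
    (h : ∀ t, f' t ≤ g t) {t : ℝ} (ht : 0 ≤ t) : f t ≤ f 0 + ∫ r in (0 : ℝ)..t, g r := by
  have h1 : ∀ t, HasDerivAt (fun t => f t - ∫ r in (0 : ℝ)..t, g r) (f' t - g t) t := fun t =>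
    (hf t).sub (intervalIntegral.integral_hasDerivAt_right (hg.intervalIntegrable _ _)
      (hg.stronglyMeasurableAtFilter _ _) hg.continuousAt)
  have h2 : Antitone fun t => f t - ∫ r in (0 : ℝ)..t, g r :=
    antitone_of_hasDerivAt_nonpos h1 fun t => sub_nonpos.2 (h t)
  have h3 := h2 ht
  simp only [intervalIntegral.integral_same, sub_zero] at h3
  linarith

/-- absorption -/
theorem absorb_sup {f H : ℝ → ℝ} {s C : ℝ} (hs : 0 < s) (hC : 0 ≤ C) (hf : Continuous f)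
    (hH : Continuous H) (hf0 : ∀ t, 0 ≤ f t) (hH0 : ∀ t, 0 ≤ H t)
    (h : ∀ t, 0 ≤ t → f t ≤ ∫ r in (0 : ℝ)..t, (2 * C * H r + 1 / (2 * s) * f r)) :
    ∀ t ∈ Icc (0 : ℝ) s, f t ≤ 4 * C * ∫ r in (0 : ℝ)..s, H r := by
  obtain ⟨m, hm, hmax⟩ := isCompact_Icc.exists_isMaxOn (nonempty_Icc.2 hs.le) hf.continuousOn
  have h1 : f m ≤ 2 * C * (∫ r in (0 : ℝ)..s, H r) + f m / 2 := by
    have h2 := h m hm.1
    have h3 : ∫ r in (0 : ℝ)..m, (2 * C * H r + 1 / (2 * s) * f r) ≤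
        ∫ r in (0 : ℝ)..m, (2 * C * H r + 1 / (2 * s) * f m) := by
      refine intervalIntegral.integral_mono_on hm.1 ?_ ?_ fun r hr => ?_
      · exact ((continuous_const.mul hH).add (continuous_const.mul hf)).intervalIntegrable _ _
      · exact ((continuous_const.mul hH).add continuous_const).intervalIntegrable _ _
      · have h4 : f r ≤ f m := hmax ⟨hr.1, hr.2.trans hm.2⟩
        have h5 : 0 ≤ 1 / (2 * s) := by positivity
        gcongr
    have h4 : ∫ r in (0 : ℝ)..m, (2 * C * H r + 1 / (2 * s) * f m) ≤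
        ∫ r in (0 : ℝ)..s, (2 * C * H r + 1 / (2 * s) * f m) := by
      refine intervalIntegral.integral_mono_interval le_rfl hm.1 hm.2 (ae_of_all _ fun r => ?_) ?_
      · have h5 : 0 ≤ 1 / (2 * s) := by positivity
        have := hH0 r
        have := hf0 m
        positivity
      · exact ((continuous_const.mul hH).add continuous_const).intervalIntegrable _ _
    have h6 : ∫ r in (0 : ℝ)..s, (2 * C * H r + 1 / (2 * s) * f m) =
        2 * C * (∫ r in (0 : ℝ)..s, H r) + f m / 2 := by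
      have c1 : IntervalIntegrable (fun r => 2 * C * H r) volume 0 s :=
        (continuous_const.mul hH).intervalIntegrable _ _
      have c2 : IntervalIntegrable (fun _ : ℝ => 1 / (2 * s) * f m) volume 0 s :=
        continuous_const.intervalIntegrable _ _
      rw [intervalIntegral.integral_add c1 c2, intervalIntegral.integral_const_mul,
        intervalIntegral.integral_const, smul_eq_mul, sub_zero]
      congr 1
      field_simp
    linarith
  intro t ht
  have h2 : f t ≤ f m := hmax ht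
  linarith

/-- PER. -/
theorem per (hK : GpkStmt) (hQ : GrqStmt) (hC : CtiStmt) (hD : DifStmt) : PerStmt := by
  intro a al ha hal
  obtain ⟨C, hC0, hdif⟩ := hD a al ha hal
  refine ⟨4 * C, by positivity, ?_⟩
  intro X _ μ _ κ b om W J A M l v E _ _ e Φ V Z0 Z1 c s hW hM hl hs hA hv hL hZ0 hZ1
  obtain ⟨k1, k2, k3, -, -, -, -, -, -, k10⟩ := hK _ κ b om W hW
  obtain ⟨-, -, g3, g4, -, g6, g7, -⟩ := hQ _ κ b om W hW
  -- the curves
  set Y : ℝ → KK (Lp ℝ 2 μ) := fun t => e (Φ t c) with hY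
  have hYd : ∀ t, HasDerivAt Y
      (-(PK b J (W (-t) (inj (ml μ (cfv μ a al M (v t)) (P2 (W t (Y t)))))))) t := hL.der c
  set D : ℝ → KK (Lp ℝ 2 μ) := fun t => Z1 t - Z0 t - Y t with hDd
  have cZ0 : Continuous Z0 := continuous_iff_continuousAt.2 fun t => (hZ0.eq t).continuousAt
  have cY : Continuous Y := continuous_iff_continuousAt.2 fun t => (hYd t).continuousAt
  have cw : Continuous fun t => P2 (W t (Z0 t)) := P2.continuous.comp (g6 _ cZ0)
  have cy : Continuous fun t => P2 (W t (Y t)) := P2.continuous.comp (g6 _ cY)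
  have hPy : ∀ t, PJ b J (P2 (W t (Y t))) = P2 (W t (Y t)) := by
    intro t
    have h1 : PK b J (Y t) = Y t := (hL.rng (Y t)).2 ⟨_, rfl⟩
    rw [← k2, k1, h1]
  obtain ⟨c1, c2, c3, c4, c5⟩ := hC X μ κ b J A a al l M ha hal hl hM hA _ v _ cw hv cy hPy
  set F : Lp ℝ 2 μ → Lp ℝ 2 μ := nem μ (gl a al l) with hF
  set h : ℝ → Lp ℝ 2 μ := fun t => F (P2 (W t (Z1 t))) - F (P2 (W t (Z0 t))) -
    PJ b J (ml μ (cfv μ a al M (v t)) (P2 (W t (Y t)))) with hh'
  have hD' : ∀ t, HasDerivAt D (-(W (-t) (inj (h t)))) t := by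
    intro t
    have h1 := ((hZ1.eq t).sub (hZ0.eq t)).sub (hYd t)
    have e1 : -(W (-t) (inj (h t))) = -(W (-t) (inj (F (P2 (W t (Z1 t)))))) -
        -(W (-t) (inj (F (P2 (W t (Z0 t)))))) -
        -(PK b J (W (-t) (inj (ml μ (cfv μ a al M (v t)) (P2 (W t (Y t))))))) := by
      rw [k1, k3, hh']
      simp only [map_sub]
      abel
    rw [e1]
    exact h1
  have cD : Continuous D := continuous_iff_continuousAt.2 fun t => (hD' t).continuousAt
  have hdec : ∀ t, P2 (W t (Z1 t)) = P2 (W t (Z0 t)) + P2 (W t (Y t)) + P2 (W t (D t)) := by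
    intro t
    rw [hDd]
    simp only [map_sub]
    abel
  have hf : ∀ t, HasDerivAt (fun t => ‖D t‖ ^ 2) (-(2 * ⟪h t, P2 (W t (D t))⟫_ℝ)) t := by
    intro t
    have h1 := (hD' t).norm_sq
    have e1 : 2 * ⟪D t, -(W (-t) (inj (h t)))⟫_ℝ = -(2 * ⟪h t, P2 (W t (D t))⟫_ℝ) := by
      rw [inner_neg_right, ← g4, real_inner_comm, g7]
      ring
    rw [← e1]
    exact h1
  -- the terms of `hh`
  have n1 : ∀ t, 0 ≤ h1 μ al (P2 (W t (Y t))) := fun t =>
    integral_nonneg fun x => Real.rpow_nonneg (abs_nonneg _) _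
  have n2 : ∀ t, 0 ≤ h2 μ al l (P2 (W t (Z0 t))) (P2 (W t (Y t))) := by
    intro t
    unfold h2
    split_ifs
    · refine integral_nonneg fun x => mul_nonneg (Real.rpow_nonneg ?_ _) (by positivity)
      exact le_min (abs_nonneg _) hl.le
    · exact le_rfl
  have n3 : ∀ t, 0 ≤ h3 μ a al l M (P2 (W t (Z0 t))) (P2 (W t (Y t))) := fun t =>
    integral_nonneg fun x => mul_nonneg (le_max_right _ _) (sq_nonneg _)
  have n4 : ∀ t, 0 ≤ h4 μ a al l M (P2 (W t (Z0 t))) (v t) (P2 (W t (Y t))) := fun t =>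
    integral_nonneg fun x => mul_nonneg (sq_nonneg _) (sq_nonneg _)
  have n5 : ∀ t, 0 ≤ lk μ b J (cfv μ a al M (v t)) (P2 (W t (Y t))) := fun t => sq_nonneg _
  have cH : Continuous fun t => hh μ a al l M s b J (P2 (W t (Z0 t))) (v t) (P2 (W t (Y t))) := by
    unfold hh
    exact ((c1.add c2).add c3).add (continuous_const.mul (c4.add c5))
  have nH : ∀ t, 0 ≤ hh μ a al l M s b J (P2 (W t (Z0 t))) (v t) (P2 (W t (Y t))) := by
    intro t
    have := n1 t; have := n2 t; have := n3 t; have := n4 t; have := n5 t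
    unfold hh
    positivity
  have hf' : ∀ t, -(2 * ⟪h t, P2 (W t (D t))⟫_ℝ) ≤
      2 * C * hh μ a al l M s b J (P2 (W t (Z0 t))) (v t) (P2 (W t (Y t))) +
        1 / (2 * s) * ‖D t‖ ^ 2 := by
    intro t
    have e1 := hdif X μ κ b J A l M (1 / (2 * s)) (P2 (W t (Z0 t))) (v t) (P2 (W t (Y t)))
      (P2 (W t (D t))) hl hM (by positivity) hA (hPy t)
    rw [← hdec t] at e1
    have e2 : -(2 * ⟪h t, P2 (W t (D t))⟫_ℝ) =
        -(2 * ⟪F (P2 (W t (Z1 t))) - F (P2 (W t (Z0 t))), P2 (W t (D t))⟫_ℝ) +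
        2 * ⟪PJ b J (ml μ (cfv μ a al M (v t)) (P2 (W t (Y t)))), P2 (W t (D t))⟫_ℝ := by
      rw [hh', inner_sub_left]
      ring
    rw [e2]
    refine e1.trans ?_
    have e3 : ‖P2 (W t (D t))‖ ^ 2 ≤ ‖D t‖ ^ 2 := by
      have e4 := (k10 (W t (D t))).1
      rw [g3] at e4
      exact pow_le_pow_left₀ (norm_nonneg _) e4 2
    have e5 : 1 / (2 * s) * ‖P2 (W t (D t))‖ ^ 2 ≤ 1 / (2 * s) * ‖D t‖ ^ 2 :=
      mul_le_mul_of_nonneg_left e3 (by positivity)
    refine add_le_add ?_ e5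
    rw [one_div_one_div, mul_comm 2 C, mul_assoc C 2]
    refine mul_le_mul_of_nonneg_left ?_ hC0.le
    have key : ∀ p1 p2 p3 q : ℝ, 0 ≤ p1 → 0 ≤ p2 → 0 ≤ p3 →
        p1 + p2 + p3 + 2 * s * q ≤ 2 * (p1 + p2 + p3 + s * q) := by
      intro p1 p2 p3 q hp1 hp2 hp3
      linarith
    exact key _ _ _ _ (n1 t) (n2 t) (n3 t)
  have hD0 : D 0 = 0 := by
    rw [hDd, hY]
    simp only [hZ0.z0, hZ1.z0, hL.zero]
    abel
  have cf : Continuous fun t => ‖D t‖ ^ 2 := cD.norm.pow 2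
  have hint : ∀ t, 0 ≤ t → ‖D t‖ ^ 2 ≤ ∫ r in (0 : ℝ)..t,
      (2 * C * hh μ a al l M s b J (P2 (W r (Z0 r))) (v r) (P2 (W r (Y r))) +
        1 / (2 * s) * ‖D r‖ ^ 2) := by
    intro t ht
    have e1 := cmp_int hf ((continuous_const.mul cH).add (continuous_const.mul cf)) hf' ht
    simp only [hD0, norm_zero] at e1
    simpa using e1
  exact absorb_sup hs hC0.le cf cH (fun t => sq_nonneg _) nH hint

end Pool.Agent.BEL.H29
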