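import Pool.Agent.BEL.StmtsD

/-!
# Squad BEL, row SPR: properties of the limit flow
-/

namespace Pool.Agent.BEL.H29

open MeasureTheory Filter Topology Set
open scoped InnerProductSpace ENNReal NNReal

/-- SPR. -/
theorem spr (hP : PrsStmt) (hG : GlpStmt) (hN : NemStmt) : SprStmt := by
  intro X _ μ _ κ a al b om W Z S ha hal hW hL
  have hg := hG a al ha hal
  have hf : ∀ n : ℕ, LipschitzWith (Real.toNNReal (a * (al + 1) * (n : ℝ) ^ al))
      (nem μ (gl a al n)) ∧ nem μ (gl a al n) 0 = 0 ∧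
      ∀ v w : Lp ℝ 2 μ, 0 ≤ ⟪nem μ (gl a al n) v - nem μ (gl a al n) w, v - w⟫_ℝ := by
    intro n
    have hk : (0 : ℝ) ≤ n := Nat.cast_nonneg n
    obtain ⟨-, h2, h3, -, -, h6⟩ := hN X μ (gl a al n) _ (hg.2.1 n hk) (hg.2.2.2.1 n)
    exact ⟨h2, h3, h6 (hg.2.2.1 n hk)⟩
  obtain ⟨h0, hc, hd, he⟩ := hP _ κ b om W _ Z S hW (fun n => ⟨_, (hf n).1⟩)
    (fun n => (hf n).2.2) (fun n => (hf n).2.1) hL
  refine ⟨h0, fun t ht V V' => he V V' t ht, hc, fun V => ?_, fun V s hs t _ hst => ?_⟩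
  · exact (hc V).comp_continuous (by fun_prop) (fun t => le_max_right t 0)
  · exact hd V s t hs hst

end Pool.Agent.BEL.H29
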